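import Mathlib
import Pool.Agent.H32.CHU

open Set Filter Function Topology
open Cardinal hiding univ

namespace Pool.Agent.Results.MP_f4378e_lc.UnderCH

open Pool.Agent.H32 UFA

/-- `Y`, with `ι : X → Y` and the assignment `st`, is a topological hyperextension of `X` -/
structure HyperExt {X Y : Type} [TopologicalSpace Y] (ι : X → Y) (st : (X → X) → Y → Y) :
    Prop where
  t1 : T1Space Y
  inj : Injective ι
  dense : DenseRange ι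
  discrete : IsDiscrete (range ι)
  cont : ∀ f, Continuous (st f)
  ext : ∀ f x, st f (ι x) = ι (f x)
  comp : ∀ f g, st g ∘ st f = st (g ∘ f)
  loc : ∀ f (A : Set X), (∀ x ∈ A, f x = x) → ∀ ξ ∈ closure (ι '' A), st f ξ = ξ
  ana : ∀ f g, (∀ x, f x ≠ g x) ↔ ∀ ξ, st f ξ ≠ st g ξ
  pair : ∃ p q, ∀ ξ η, ∃ ζ, st p ζ = ξ ∧ st q ζ = η

def CountablyCompact (Y : Type) [TopologicalSpace Y] : Prop := T2Space Y ∧
  ∀ U : ℕ → Set Y, (∀ n, IsOpen (U n)) → ⋃ n, U n = univ → ∃ s : Finset ℕ, ⋃ n ∈ s, U n = univ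

def Good (S : Set UF) : Prop := (∀ f, ∀ ξ ∈ S, ξ.map f ∈ S) ∧
  (∀ ξ ∈ S, ∀ η ∈ S, ∃ ζ ∈ S, ζ.map (fun k => k.unpair.1) = ξ ∧ ζ.map (fun k => k.unpair.2) = η) ∧
  ∀ ξ ∈ S, ∀ f g : ℕ → ℕ, (∀ x, f x ≠ g x) → ξ.map f ≠ ξ.map g

def R (S S' : Set UF) : Prop := S'.Nonempty ∧ ∀ ξ : ℕ → UF, (∀ n, ξ n ∈ S) →
  ∃ v : UF, (v : Filter ℕ) ≤ atTop ∧ v.bind ξ ∈ S'

lemma step (CH : 𝔠 = (ℵ₁ : Cardinal.{0})) (S : Set UF) (h : Good S) (hs : #S ≤ 𝔠) :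
    ∃ S', S ⊆ S' ∧ Good S' ∧ #S' ≤ 𝔠 ∧ R S S' := by
  rcases S.eq_empty_or_nonempty with rfl | hn
  · refine ⟨range pure, empty_subset _, ⟨?_, ?_, ?_⟩, mk_range_le.trans (by simp [aleph0_le_continuum]),
      range_nonempty _, fun ξ k => (k 0).elim⟩
    · rintro f _ ⟨n, rfl⟩
      exact ⟨f n, rfl⟩
    · rintro _ ⟨n, rfl⟩ _ ⟨m, rfl⟩
      exact ⟨_, ⟨Nat.pair n m, rfl⟩, by simp, by simp⟩
    · rintro _ ⟨n, rfl⟩ f g k z
      exact k n (Ultrafilter.pure_injective z)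
  have c : #(ℕ → S) ≤ 𝔠 := by
    simpa using power_le_power_right (c := ℵ₀) hs
  obtain ⟨v, v1, v2⟩ := CHU.ch_uf CH (T := (ℕ → S) × (ℕ → S))
    (by simpa using mul_le_mul' c c)
    (fun t B => (∀ n, t.1 n ≠ t.2 n) → ∃ A, ∀ n ∈ B, A ∈ (t.1 n).1 ∧ A ∉ (t.2 n).1) fun t x => by
      by_cases k : ∀ n, t.1 n ≠ t.2 n
      · obtain ⟨A, hA⟩ := CHU.sep fun n => Subtype.val_injective.ne (k (x n))
        exact ⟨_, fun _ => ⟨A, fun _ => id⟩, hA⟩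
      · exact ⟨univ, fun z => (k z).elim, Frequently.of_forall fun _ => trivial⟩
  have m : S ⊆ range fun ξ : ℕ → S => v.bind fun n => (ξ n).1 := fun p hp =>
    ⟨fun _ => ⟨p, hp⟩, bind_const _ _⟩
  refine ⟨_, m, ⟨?_, ?_, ?_⟩, mk_range_le.trans c, hn.mono m, fun ξ k =>
    ⟨v, v1, fun n => ⟨_, k n⟩, rfl⟩⟩
  · rintro f _ ⟨ξ, rfl⟩
    exact ⟨fun n => ⟨_, h.1 f _ (ξ n).2⟩, rfl⟩
  · rintro _ ⟨ξ, rfl⟩ _ ⟨η, rfl⟩
    choose ζ z1 z2 z3 using fun n => h.2.1 _ (ξ n).2 _ (η n).2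
    exact ⟨_, ⟨fun n => ⟨_, z1 n⟩, rfl⟩, congrArg v.bind (funext z2), congrArg v.bind (funext z3)⟩
  · rintro _ ⟨ξ, rfl⟩ f g k z
    obtain ⟨B, b1, b2⟩ := v2 (fun n => ⟨_, h.1 f _ (ξ n).2⟩, fun n => ⟨_, h.1 g _ (ξ n).2⟩)
    obtain ⟨A, hA⟩ := b2 fun n y => h.2.2 _ (ξ n).2 f g k (congrArg Subtype.val y)
    have a : A ∈ (v.bind fun n => (ξ n).1).map f :=
      mem_of_superset (f := (v : Filter ℕ)) b1 fun n hn => (hA n hn).1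
    rw [z] at a
    obtain ⟨n, n1, n2⟩ := Ultrafilter.nonempty_of_mem (inter_mem b1 (show _ ∈ v from a))
    exact (hA n n1).2 n2

theorem result (CH : 𝔠 = (ℵ₁ : Cardinal.{0})) : ∃ (Y : Type) (_ : TopologicalSpace Y) (ι : ℕ → Y)
    (st : (ℕ → ℕ) → Y → Y), HyperExt ι st ∧ CountablyCompact Y := by
  obtain ⟨Y, ⟨y1, y2, y3⟩, hY⟩ := CHU.iter Good R (fun c hc h => ⟨fun f ξ ⟨S, a, b⟩ =>
    ⟨S, a, (h S a).1 f ξ b⟩, fun ξ ⟨S, a, b⟩ η ⟨S', a', b'⟩ => by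
      obtain ⟨Z, z1, z2, z3⟩ := hc S a S' a'
      obtain ⟨ζ, k1, k2⟩ := (h Z z1).2.1 ξ (z2 b) η (z3 b')
      exact ⟨ζ, ⟨Z, z1, k1⟩, k2⟩, fun ξ ⟨S, a, b⟩ => (h S a).2.2 ξ b⟩) (step CH)
  have p : ∀ n : ℕ, pure n ∈ Y := fun n => by
    obtain ⟨_, _, -, ⟨⟨ξ, a⟩, -⟩, b⟩ := hY ∅ (empty_subset _) countable_empty
    exact map_eq_pure.2 (univ_mem' (f := (ξ : Filter ℕ)) fun _ => rfl) ▸ y1 (fun _ => n) ξ (b a)
  obtain ⟨d1, d2⟩ := UFB.discrete_of_part (g := fun n => (pure n : UF)) (ρ := id) fun _ => rfl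
  refine ⟨Y, inferInstance, fun n => ⟨_, p n⟩, fun f ξ => ⟨_, y1 f _ ξ.2⟩, ⟨inferInstance,
    fun a b k => d1 (congrArg Subtype.val k), ?_,
    (UFB.discrete_image IsEmbedding.subtypeVal).2 d2, fun f => Continuous.subtype_mk ?_ _,
    fun _ _ => rfl, fun _ _ => rfl, fun f A h ξ k => Subtype.ext ?_,
    fun f g => ⟨fun h ξ k => y3 _ ξ.2 f g h (congrArg Subtype.val k), fun h x k =>
      h ⟨_, p x⟩ (Subtype.ext (congrArg pure k))⟩, fun k => k.unpair.1, fun k => k.unpair.2,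
      fun ξ η => ?_⟩, inferInstance,
    fun U h1 h2 => ?_⟩
  · refine Subtype.dense_iff.2 fun ξ _ => ?_
    rw [← range_comp]
    exact denseRange_pure ξ
  · refine Continuous.comp (g := Ultrafilter.map f)
      (ultrafilterBasis_is_basis.continuous_iff.2 ?_) continuous_subtype_val
    rintro _ ⟨s, rfl⟩
    exact ultrafilter_isOpen_basic (f ⁻¹' s)
  · have : A ∈ ξ.1 := closure_minimal (by rintro _ ⟨n, hn, rfl⟩; exact hn)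
      ((ultrafilter_isClosed_basic A).preimage continuous_subtype_val) k
    exact (map_congr (f' := id) (mem_of_superset this h)).trans rfl
  · obtain ⟨ζ, a, b, c⟩ := y2 _ ξ.2 _ η.2
    exact ⟨⟨ζ, a⟩, Subtype.ext b, Subtype.ext c⟩
  · by_contra! z
    choose ξ hξ using fun n => (ne_univ_iff_exists_notMem _).1 (z (Finset.range (n + 1)))
    obtain ⟨S, S', a, ⟨-, b⟩, c⟩ := hY (range fun n => (ξ n).1)
      (range_subset_iff.2 fun n => (ξ n).2) (countable_range _)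
    obtain ⟨v, v1, v2⟩ := b _ fun n => a ⟨n, rfl⟩
    obtain ⟨m, hm⟩ := mem_iUnion.1 (h2.ge (mem_univ ⟨_, c v2⟩))
    have t : Tendsto ξ v (𝓝 ⟨_, c v2⟩) := tendsto_subtype_rng.2 (UFB.tendsto_bind v _)
    obtain ⟨n, n1, n2⟩ := Ultrafilter.nonempty_of_mem
      (inter_mem (t ((h1 m).mem_nhds hm)) (v1 (eventually_ge_atTop m)))
    exact hξ n (mem_biUnion (Finset.mem_range.2 (Nat.lt_succ_of_le n2)) n1)

end Pool.Agent.Results.MP_f4378e_lc.UnderCH
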